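import Pool.Agent.Results.MP_53d700_al.AffineModifications

set_option autoImplicit false

open Polynomial TensorProduct

namespace Pool.Agent.Results.MP_ed7674_ag.RamifiedRegularRings

open Pool.Agent.W394.BQN

/-- every stably free module over a polynomial ring `A[t_1,...,t_d]` is extended from `A` -/
def StablyFreeExtended (A : Type) [CommRing A] : Prop :=
  ∀ (d n k : ℕ) (P : Type) [AddCommGroup P] [Module (MvPolynomial (Fin d) A) P],
    Nonempty ((P × (Fin n → MvPolynomial (Fin d) A)) ≃ₗ[MvPolynomial (Fin d) A]
      (Fin k → MvPolynomial (Fin d) A)) →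
    ∃ (Q : Type) (_ : AddCommGroup Q) (_ : Module A Q),
      Nonempty (P ≃ₗ[MvPolynomial (Fin d) A] MvPolynomial (Fin d) A ⊗[A] Q)

theorem key (A : Type) [CommRing A] (hA : BassQuillen A) : StablyFreeExtended A := by
  intro d n k P _ _ ⟨e⟩
  let i : P →ₗ[MvPolynomial (Fin d) A] (Fin k → MvPolynomial (Fin d) A) :=
    e.toLinearMap ∘ₗ LinearMap.inl _ _ _
  let s : (Fin k → MvPolynomial (Fin d) A) →ₗ[MvPolynomial (Fin d) A] P :=
    LinearMap.fst _ _ _ ∘ₗ e.symm.toLinearMap
  have hsi : s ∘ₗ i = LinearMap.id := by
    ext x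
    simp [s, i]
  have h1 : Module.Projective (MvPolynomial (Fin d) A) P := Module.Projective.of_split i s hsi
  have h2 : Module.Finite (MvPolynomial (Fin d) A) P := by
    refine Module.Finite.of_surjective s ?_
    intro x
    exact ⟨i x, LinearMap.congr_fun hsi x⟩
  exact hA (Fin d) P

/-- **The Lam conjecture for rings which are locally iterated affine modifications.** -/
theorem result :
    -- rings which are locally iterated affine modifications
    (∀ (A : Type) [CommRing A],
      (∀ (m : Ideal A) [m.IsMaximal], IsLocGood (Localization.AtPrime m)) →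
      StablyFreeExtended A) ∧
    -- all regular rings `V[z,x_0,...,x_r]/(x_0 ⋯ x_r - u(z))`, `V` a Dedekind domain, `u` monic
    (∀ (V : Type) [CommRing V] [IsDedekindDomain V] (u : V[X]), u.Monic → ∀ r : ℕ, 0 < r →
      IsRegularRing (HS V u r) → StablyFreeExtended (HS V u r)) := by
  refine ⟨?_, ?_⟩
  · intro A _ hA
    exact key A (Pool.Agent.Results.MP_53d700_al.AffineModifications.result.2.2.1 A hA)
  · intro V _ _ u hu r hr hreg
    exact key (HS V u r)
      ((Pool.Agent.Results.MP_53d700_al.AffineModifications.result.2.2.2.1 V u hu r hr).2 hreg)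

end Pool.Agent.Results.MP_ed7674_ag.RamifiedRegularRings
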